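import Pool.Agent.helper56.CT.SpecA

namespace CT
open Finset

section

variable {V : Type} [DecidableEq V]

def B1_P (e : V × Fin 4 → V × Fin 4) (u : V) (a b c d : Fin 4) (G : V × Fin 4 → V × Fin 4)
    (k : ℕ) : Prop :=
  join (join e (u, a) (u, b)) (u, c) (u, d) = G ∧
    lp e (u, a) (u, b) + lp (join e (u, a) (u, b)) (u, c) (u, d) = k

variable {e : V × Fin 4 → V × Fin 4} {u : V} {G : V × Fin 4 → V × Fin 4} {k : ℕ}

omit [DecidableEq V] in
theorem B1_ne {u : V} {a b : Fin 4} (h : a ≠ b) : (u, a) ≠ (u, b) := fun h' =>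
  h (congrArg Prod.snd h')

theorem B1_s1 (he : ∀ d, e (e d) = d) {a b c d : Fin 4} (h : B1_P e u a b c d G k) :
    B1_P e u b a c d G k := by
  unfold B1_P at *
  rw [join_symm e he (u, b) (u, a), lp_symm e he (u, b) (u, a)]
  exact h

theorem B1_s2 (he : ∀ d, e (e d) = d) (hf : ∀ k, e (u, k) ≠ (u, k)) {a b c d : Fin 4}
    (hab : a ≠ b) (h : B1_P e u a b c d G k) : B1_P e u a b d c G k := by
  have hi := join_invol e he (B1_ne (u := u) hab) (hf a) (hf b)
  unfold B1_P at *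
  rw [join_symm _ hi (u, d) (u, c), lp_symm _ hi (u, d) (u, c)]
  exact h

theorem B1_s3 (he : ∀ d, e (e d) = d) (hf : ∀ k, e (u, k) ≠ (u, k)) {a b c d : Fin 4}
    (hab : a ≠ b) (hac : a ≠ c) (had : a ≠ d) (hbc : b ≠ c) (hbd : b ≠ d) (hcd : c ≠ d)
    (h : B1_P e u a b c d G k) : B1_P e u c d a b G k := by
  have h1 := join_comm e he (B1_ne (u := u) hab) (B1_ne hac) (B1_ne had) (B1_ne hbc) (B1_ne hbd)
    (B1_ne hcd) (hf a) (hf b) (hf c) (hf d)
  have h2 := lp_comm e he (B1_ne (u := u) hab) (B1_ne hac) (B1_ne had) (B1_ne hbc) (B1_ne hbd)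
    (B1_ne hcd) (hf a) (hf b) (hf c) (hf d)
  unfold B1_P at *
  rw [← h1, ← h2]
  exact h

theorem B1_b0 {i j y z : Fin 4} (hij : e (u, i) = (u, j)) :
    B1_P e u i j y z (join (join e (u, i) (u, j)) (u, y) (u, z))
      (1 + lp (join e (u, i) (u, j)) (u, y) (u, z)) := by
  refine ⟨rfl, ?_⟩
  congr 1
  unfold lp
  rw [if_pos hij]

theorem B1_b1 (he : ∀ d, e (e d) = d) (hf : ∀ k, e (u, k) ≠ (u, k)) {i j y z : Fin 4}
    (hij : e (u, i) = (u, j)) (h1 : i ≠ j) (h2 : i ≠ y) (h3 : i ≠ z) (h4 : j ≠ y) (h5 : j ≠ z)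
    (h6 : y ≠ z) :
    B1_P e u i y j z (join (join e (u, i) (u, j)) (u, y) (u, z))
      (lp (join e (u, i) (u, j)) (u, y) (u, z)) := by
  obtain ⟨a1, a2, a3⟩ := join_chain e he hij (B1_ne h1) (B1_ne h2) (B1_ne h3) (B1_ne h4)
    (B1_ne h5) (B1_ne h6) (hf y) (hf z)
  exact ⟨a1, by rw [a2, a3, zero_add]⟩

theorem B1_b2 (he : ∀ d, e (e d) = d) (hf : ∀ k, e (u, k) ≠ (u, k)) {i j y z : Fin 4}
    (hij : e (u, i) = (u, j)) (h1 : i ≠ j) (h2 : i ≠ y) (h3 : i ≠ z) (h4 : j ≠ y) (h5 : j ≠ z)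
    (h6 : y ≠ z) :
    B1_P e u i z j y (join (join e (u, i) (u, j)) (u, y) (u, z))
      (lp (join e (u, i) (u, j)) (u, y) (u, z)) := by
  have hi := join_invol e he (B1_ne (u := u) h1) (hf i) (hf j)
  obtain ⟨a1, a2, a3⟩ := join_chain e he hij (B1_ne h1) (B1_ne h3) (B1_ne h2) (B1_ne h5)
    (B1_ne h4) (B1_ne h6.symm) (hf z) (hf y)
  refine ⟨?_, ?_⟩
  · rw [a1, join_symm _ hi (u, z) (u, y)]
  · rw [a2, a3, zero_add, lp_symm _ hi (u, z) (u, y)]

theorem B1_fin (L : List V) {k0 k1 k2 ε : ℕ} (h0 : B1_P e u 0 1 2 3 G k0)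
    (h1 : B1_P e u 0 2 1 3 G k1) (h2 : B1_P e u 0 3 1 2 G k2)
    (hk : (k0 = 1 + ε ∧ k1 = ε ∧ k2 = ε) ∨ (k0 = ε ∧ k1 = 1 + ε ∧ k2 = ε) ∨
      (k0 = ε ∧ k1 = ε ∧ k2 = 1 + ε)) : Z (-2) (u :: L) e = 0 := by
  have e0 : sm e u 0 = G := h0.1
  have e1 : sm e u 1 = G := h1.1
  have e2 : sm e u 2 = G := h2.1
  have f0 : ls e u 0 = k0 := h0.2
  have f1 : ls e u 1 = k1 := h1.2
  have f2 : ls e u 2 = k2 := h2.2
  show ∑ t : Fin 3, (-2 : ℤ) ^ ls e u t * Z (-2) L (sm e u t) = 0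
  rw [Fin.sum_univ_three, e0, e1, e2, f0, f1, f2]
  rcases hk with ⟨rfl, rfl, rfl⟩ | ⟨rfl, rfl, rfl⟩ | ⟨rfl, rfl, rfl⟩ <;> ring

theorem B1_main (L : List V) (he : ∀ d, e (e d) = d) (hf : ∀ k, e (u, k) ≠ (u, k))
    (i j : Fin 4) (hlt : i < j) (hij : e (u, i) = (u, j)) : Z (-2) (u :: L) e = 0 := by
  have s1 := fun {G : V × Fin 4 → V × Fin 4} {k : ℕ} {a b c d : Fin 4} =>
    B1_s1 (e := e) (u := u) (G := G) (k := k) (a := a) (b := b) (c := c) (d := d) he
  have hcases : (i = 0 ∧ j = 1) ∨ (i = 0 ∧ j = 2) ∨ (i = 0 ∧ j = 3) ∨ (i = 1 ∧ j = 2) ∨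
      (i = 1 ∧ j = 3) ∨ (i = 2 ∧ j = 3) :=
    (by decide : ∀ i j : Fin 4, i < j → (i = 0 ∧ j = 1) ∨ (i = 0 ∧ j = 2) ∨ (i = 0 ∧ j = 3) ∨
      (i = 1 ∧ j = 2) ∨ (i = 1 ∧ j = 3) ∨ (i = 2 ∧ j = 3)) i j hlt
  rcases hcases with ⟨rfl, rfl⟩ | ⟨rfl, rfl⟩ | ⟨rfl, rfl⟩ | ⟨rfl, rfl⟩ | ⟨rfl, rfl⟩ | ⟨rfl, rfl⟩
  · have c0 := B1_b0 (y := 2) (z := 3) hij
    have c1 := B1_b1 (y := 2) (z := 3) he hf hij (by decide) (by decide) (by decide) (by decide)
      (by decide) (by decide)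
    have c2 := B1_b2 (y := 2) (z := 3) he hf hij (by decide) (by decide) (by decide) (by decide)
      (by decide) (by decide)
    exact B1_fin L c0 c1 c2 (Or.inl ⟨rfl, rfl, rfl⟩)
  · have c0 := B1_b0 (y := 1) (z := 3) hij
    have c1 := B1_b1 (y := 1) (z := 3) he hf hij (by decide) (by decide) (by decide) (by decide)
      (by decide) (by decide)
    have c2 := B1_b2 (y := 1) (z := 3) he hf hij (by decide) (by decide) (by decide) (by decide)
      (by decide) (by decide)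
    exact B1_fin L c1 c0 (B1_s2 he hf (by decide) c2) (Or.inr (Or.inl ⟨rfl, rfl, rfl⟩))
  · have c0 := B1_b0 (y := 1) (z := 2) hij
    have c1 := B1_b1 (y := 1) (z := 2) he hf hij (by decide) (by decide) (by decide) (by decide)
      (by decide) (by decide)
    have c2 := B1_b2 (y := 1) (z := 2) he hf hij (by decide) (by decide) (by decide) (by decide)
      (by decide) (by decide)
    exact B1_fin L (B1_s2 he hf (by decide) c1) (B1_s2 he hf (by decide) c2) c0
      (Or.inr (Or.inr ⟨rfl, rfl, rfl⟩))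
  · have c0 := B1_b0 (y := 0) (z := 3) hij
    have c1 := B1_b1 (y := 0) (z := 3) he hf hij (by decide) (by decide) (by decide) (by decide)
      (by decide) (by decide)
    have c2 := B1_b2 (y := 0) (z := 3) he hf hij (by decide) (by decide) (by decide) (by decide)
      (by decide) (by decide)
    exact B1_fin L (s1 c1)
      (s1 (B1_s3 he hf (by decide) (by decide) (by decide) (by decide) (by decide) (by decide) c2))
      (B1_s3 he hf (by decide) (by decide) (by decide) (by decide) (by decide) (by decide) c0)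
      (Or.inr (Or.inr ⟨rfl, rfl, rfl⟩))
  · have c0 := B1_b0 (y := 0) (z := 2) hij
    have c1 := B1_b1 (y := 0) (z := 2) he hf hij (by decide) (by decide) (by decide) (by decide)
      (by decide) (by decide)
    have c2 := B1_b2 (y := 0) (z := 2) he hf hij (by decide) (by decide) (by decide) (by decide)
      (by decide) (by decide)
    exact B1_fin L (s1 (B1_s2 he hf (by decide) c1))
      (B1_s3 he hf (by decide) (by decide) (by decide) (by decide) (by decide) (by decide) c0)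
      (s1 (B1_s3 he hf (by decide) (by decide) (by decide) (by decide) (by decide) (by decide) c2))
      (Or.inr (Or.inl ⟨rfl, rfl, rfl⟩))
  · have c0 := B1_b0 (y := 0) (z := 1) hij
    have c1 := B1_b1 (y := 0) (z := 1) he hf hij (by decide) (by decide) (by decide) (by decide)
      (by decide) (by decide)
    have c2 := B1_b2 (y := 0) (z := 1) he hf hij (by decide) (by decide) (by decide) (by decide)
      (by decide) (by decide)
    exact B1_fin L
      (B1_s3 he hf (by decide) (by decide) (by decide) (by decide) (by decide) (by decide) c0)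
      (s1 (B1_s2 he hf (by decide) c1))
      (B1_s2 he hf (by decide) (s1 (B1_s3 he hf (by decide) (by decide) (by decide) (by decide)
        (by decide) (by decide) c2)))
      (Or.inl ⟨rfl, rfl, rfl⟩)

end

theorem B1 : B1_stmt := by
  intro V _ L e u i j he hf hij h
  rcases lt_or_gt_of_ne hij with hlt | hlt
  · exact B1_main L he hf i j hlt h
  · exact B1_main L he hf j i hlt (by rw [← h, he])

end CT
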